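import Mathlib
import Pool.Agent.W2helper31.GP.Stm5

/-!
Piece GAM3 of project GP5 (helper31): the Gamma quotient, by Euler's limit and a telescoping bound.
-/

set_option autoImplicit false

open MeasureTheory ProbabilityTheory
open scoped ENNReal NNReal Nat

namespace Pool.Agent.W2helper69.GP5

open Filter Topology Finset
open Pool.Agent.W2helper31.GP (P_GAM3)

/-- the partial sums of the telescoping series -/
noncomputable def c (n : ℕ) : ℝ := 11 / 64 * (1 / 6 - 1 / (((n : ℝ) + 2) * (n + 3)))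

lemma c_succ (n : ℕ) : c (n + 1) = c n + 11 / 32 / (((n : ℝ) + 2) * (n + 3) * (n + 4)) := by
  unfold c
  push_cast
  have h2 : (n : ℝ) + 2 ≠ 0 := by positivity
  have h3 : (n : ℝ) + 3 ≠ 0 := by positivity
  have h4 : (n : ℝ) + 4 ≠ 0 := by positivity
  have e1 : (n : ℝ) + 1 + 2 = n + 3 := by ring
  have e2 : (n : ℝ) + 1 + 3 = n + 4 := by ring
  rw [e1, e2]
  field_simp
  ring

lemma c_zero : c 0 = 0 := by
  unfold c
  norm_num

lemma c_le (n : ℕ) : c n ≤ 11 / 384 := by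
  unfold c
  have : 0 < 1 / (((n : ℝ) + 2) * (n + 3)) := by positivity
  linarith

lemma c_nonneg (n : ℕ) : 0 ≤ c n := by
  induction n with
  | zero => rw [c_zero]
  | succ n ih => rw [c_succ]; positivity

lemma term_one {p : ℝ} (h0 : 0 < p) (h1 : p ≤ 1) :
    (1 + p / 2) ^ 3 * (1 + 3 * p / 2) ≤ (1 + 56 / 1000 * p ^ 2) * (1 + p) ^ 3 := by
  have key : 0 ≤ 56 / 1000 * (1 + p) ^ 3 - p / 4 - 3 / 16 * p ^ 2 := by
    nlinarith [mul_nonneg h0.le (sq_nonneg (p - 83 / 100)), sq_nonneg (p - 83 / 100),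
      mul_nonneg h0.le (sub_nonneg.2 h1)]
  have e : (1 + 56 / 1000 * p ^ 2) * (1 + p) ^ 3 - (1 + p / 2) ^ 3 * (1 + 3 * p / 2) =
      p ^ 2 * (56 / 1000 * (1 + p) ^ 3 - p / 4 - 3 / 16 * p ^ 2) := by ring
  have : 0 ≤ p ^ 2 * (56 / 1000 * (1 + p) ^ 3 - p / 4 - 3 / 16 * p ^ 2) :=
    mul_nonneg (sq_nonneg p) key
  linarith

lemma term_many {p m : ℝ} (h0 : 0 < p) (h1 : p ≤ 1) (hm : 2 ≤ m) :
    (m + p / 2) ^ 3 * (m + 3 * p / 2) ≤
      (1 + 11 / 32 / (m * (m + 1) * (m + 2)) * p ^ 2) * (m * (m + p) ^ 3) := by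
  have hm0 : 0 < m := by linarith
  have key : 0 ≤ 11 * (m + p) ^ 3 - 8 * p * (m + 3 / 4 * p) * ((m + 1) * (m + 2)) := by
    have e : 11 * (m + p) ^ 3 - 8 * p * (m + 3 / 4 * p) * ((m + 1) * (m + 2)) =
      m ^ 3 * (11 - 8 * p) + m ^ 2 * p * (9 - 6 * p) + m * (15 * p ^ 2 - 16 * p) +
        (11 * p ^ 3 - 12 * p ^ 2) := by ring
    rw [e]
    have a1 : 0 ≤ m * (m ^ 2 - 4) * (11 - 8 * p) := by
      have : 0 ≤ m ^ 2 - 4 := by nlinarith
      have : 0 ≤ 11 - 8 * p := by linarith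
      positivity
    have a2 : 0 ≤ m ^ 2 * p * (9 - 6 * p) := by
      have : 0 ≤ 9 - 6 * p := by linarith
      positivity
    have a3 : 11 ≤ 44 - 48 * p + 15 * p ^ 2 := by nlinarith
    have a4 : 22 ≤ m * (44 - 48 * p + 15 * p ^ 2) := by nlinarith
    have a5 : 0 ≤ p ^ 3 := by positivity
    have a6 : p ^ 2 ≤ 1 := by nlinarith
    nlinarith
  have e : (1 + 11 / 32 / (m * (m + 1) * (m + 2)) * p ^ 2) * (m * (m + p) ^ 3) -
      (m + p / 2) ^ 3 * (m + 3 * p / 2) = p ^ 2 / (32 * ((m + 1) * (m + 2))) *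
        (11 * (m + p) ^ 3 - 8 * p * (m + 3 / 4 * p) * ((m + 1) * (m + 2))) := by
    have h2 : m + 1 ≠ 0 := by positivity
    have h3 : m + 2 ≠ 0 := by positivity
    field_simp
    ring
  have : 0 ≤ p ^ 2 / (32 * ((m + 1) * (m + 2))) *
        (11 * (m + p) ^ 3 - 8 * p * (m + 3 / 4 * p) * ((m + 1) * (m + 2))) :=
    mul_nonneg (by positivity) key
  linarith

lemma prod_le {p : ℝ} (h0 : 0 < p) (h1 : p ≤ 1) (n : ℕ) :
    (∏ j ∈ range (n + 1), ((1 + p / 2 + (j : ℝ)) ^ 3 * (1 + 3 * p / 2 + j))) * (1 - c n * p ^ 2) ≤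
      (1 + 56 / 1000 * p ^ 2) * ∏ j ∈ range (n + 1), (((j : ℝ) + 1) * (1 + p + j) ^ 3) := by
  have hp2 : p ^ 2 ≤ 1 := by nlinarith
  induction n with
  | zero =>
    rw [c_zero]
    simp only [Nat.zero_add, Finset.prod_range_one, Nat.cast_zero, add_zero, zero_add, one_mul,
      zero_mul, sub_zero, mul_one]
    exact term_one h0 h1
  | succ n ih =>
    rw [Finset.prod_range_succ, Finset.prod_range_succ _ (n + 1)]
    obtain ⟨A, hA⟩ : ∃ A, A = ∏ j ∈ range (n + 1), ((1 + p / 2 + (j : ℝ)) ^ 3 * (1 + 3 * p / 2 + j)) :=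
      ⟨_, rfl⟩
    obtain ⟨B, hB⟩ : ∃ B, B = ∏ j ∈ range (n + 1), (((j : ℝ) + 1) * (1 + p + j) ^ 3) := ⟨_, rfl⟩
    have hA0 : 0 < A := by
      rw [hA]; exact Finset.prod_pos fun j _ => by positivity
    have hB0 : 0 < B := by
      rw [hB]; exact Finset.prod_pos fun j _ => by positivity
    rw [← hA, ← hB] at ih
    rw [← hA, ← hB]
    have ht := term_many (m := (n : ℝ) + 2) h0 h1 (by linarith [Nat.cast_nonneg (α := ℝ) n])
    have e1 : (n : ℝ) + 2 + 1 = n + 3 := by ring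
    have e2 : (n : ℝ) + 2 + 2 = n + 4 := by ring
    rw [e1, e2] at ht
    obtain ⟨h, hh⟩ : ∃ h, h = 11 / 32 / (((n : ℝ) + 2) * (n + 3) * (n + 4)) := ⟨_, rfl⟩
    have hh0 : 0 ≤ h := by rw [hh]; positivity
    rw [c_succ, ← hh]
    rw [← hh] at ht
    push_cast
    have e3 : (1 + p / 2 + ((n : ℝ) + 1)) ^ 3 * (1 + 3 * p / 2 + (n + 1)) =
      ((n : ℝ) + 2 + p / 2) ^ 3 * (n + 2 + 3 * p / 2) := by ring
    have e4 : ((n : ℝ) + 1 + 1) * (1 + p + (n + 1)) ^ 3 = (n + 2) * (n + 2 + p) ^ 3 := by ring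
    rw [e3, e4]
    obtain ⟨x, hx⟩ : ∃ x, x = ((n : ℝ) + 2 + p / 2) ^ 3 * (n + 2 + 3 * p / 2) := ⟨_, rfl⟩
    obtain ⟨y, hy⟩ : ∃ y, y = ((n : ℝ) + 2) * (n + 2 + p) ^ 3 := ⟨_, rfl⟩
    have hx0 : 0 < x := by rw [hx]; positivity
    have hy0 : 0 < y := by rw [hy]; positivity
    rw [← hx]
    rw [← hy]
    rw [← hx, ← hy] at ht
    have hc := c_nonneg n
    have hcs := c_le (n + 1)
    rw [c_succ, ← hh] at hcs
    have hpos : 0 ≤ 1 - (c n + h) * p ^ 2 := by nlinarith [sq_nonneg p]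
    calc A * x * (1 - (c n + h) * p ^ 2) ≤ A * ((1 + h * p ^ 2) * y) * (1 - (c n + h) * p ^ 2) := by
          gcongr
      _ = (A * y) * ((1 + h * p ^ 2) * (1 - (c n + h) * p ^ 2)) := by ring
      _ ≤ (A * y) * (1 - c n * p ^ 2) := by
          apply mul_le_mul_of_nonneg_left _ (by positivity)
          have : 0 ≤ h * p ^ 2 * ((c n + h) * p ^ 2) := by positivity
          nlinarith
      _ = (A * (1 - c n * p ^ 2)) * y := by ring
      _ ≤ ((1 + 56 / 1000 * p ^ 2) * B) * y := by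
          apply mul_le_mul_of_nonneg_right ih hy0.le
      _ = (1 + 56 / 1000 * p ^ 2) * (B * y) := by ring

lemma prod_le' {p : ℝ} (h0 : 0 < p) (h1 : p ≤ 1) (n : ℕ) :
    (∏ j ∈ range (n + 1), ((1 + p / 2 + (j : ℝ)) ^ 3 * (1 + 3 * p / 2 + j))) ≤
      (1 + 91 / 1000 * p ^ 2) * ∏ j ∈ range (n + 1), (((j : ℝ) + 1) * (1 + p + j) ^ 3) := by
  have h := prod_le h0 h1 n
  obtain ⟨A, hA⟩ : ∃ A, A = ∏ j ∈ range (n + 1), ((1 + p / 2 + (j : ℝ)) ^ 3 * (1 + 3 * p / 2 + j)) :=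
    ⟨_, rfl⟩
  obtain ⟨B, hB⟩ : ∃ B, B = ∏ j ∈ range (n + 1), (((j : ℝ) + 1) * (1 + p + j) ^ 3) := ⟨_, rfl⟩
  have hA0 : 0 < A := by
    rw [hA]; exact Finset.prod_pos fun j _ => by positivity
  have hB0 : 0 < B := by
    rw [hB]; exact Finset.prod_pos fun j _ => by positivity
  rw [← hA, ← hB] at h
  rw [← hA, ← hB]
  have hp2 : p ^ 2 ≤ 1 := by nlinarith
  have hc := c_le n
  have hpos : 0 < 1 - 11 / 384 * p ^ 2 := by nlinarith
  have h2 : A * (1 - 11 / 384 * p ^ 2) ≤ (1 + 56 / 1000 * p ^ 2) * B := by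
    refine le_trans ?_ h
    apply mul_le_mul_of_nonneg_left _ hA0.le
    nlinarith [sq_nonneg p]
  have h3 : 1 + 56 / 1000 * p ^ 2 ≤ (1 + 91 / 1000 * p ^ 2) * (1 - 11 / 384 * p ^ 2) := by
    nlinarith [sq_nonneg p, mul_nonneg (sq_nonneg p) (sub_nonneg.2 hp2)]
  have h4 : A * (1 - 11 / 384 * p ^ 2) ≤ ((1 + 91 / 1000 * p ^ 2) * B) * (1 - 11 / 384 * p ^ 2) := by
    calc _ ≤ _ := h2
      _ ≤ ((1 + 91 / 1000 * p ^ 2) * (1 - 11 / 384 * p ^ 2)) * B :=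
        mul_le_mul_of_nonneg_right h3 hB0.le
      _ = _ := by ring
  exact le_of_mul_le_mul_right h4 hpos

theorem p_gam3 : P_GAM3 := by
  intro p h0 h1
  have t1 := (Real.GammaSeq_tendsto_Gamma (1 + p)).pow 3
  have t2 := ((Real.GammaSeq_tendsto_Gamma (1 + p / 2)).pow 3).mul
    (Real.GammaSeq_tendsto_Gamma (1 + 3 * p / 2))
  have t3 : Tendsto (fun n : ℕ => ((n : ℝ) + 1) / n) atTop (𝓝 1) := by
    have : Tendsto (fun n : ℕ => 1 + 1 / (n : ℝ)) atTop (𝓝 (1 + 0)) :=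
      tendsto_const_nhds.add tendsto_one_div_atTop_nhds_zero_nat
    rw [add_zero] at this
    refine this.congr' ?_
    filter_upwards [eventually_ge_atTop 1] with n hn
    have : (n : ℝ) ≠ 0 := by positivity
    field_simp
  have t4 := t3.mul (t2.const_mul (1 + 91 / 1000 * p ^ 2))
  rw [one_mul] at t4
  refine le_of_tendsto_of_tendsto t1 t4 ?_
  filter_upwards [eventually_ge_atTop 1] with n hn
  have hn0 : (0 : ℝ) < n := by positivity
  unfold Real.GammaSeq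
  have e1 : ∏ j ∈ range (n + 1), ((1 + p / 2 + (j : ℝ)) ^ 3 * (1 + 3 * p / 2 + j)) =
      (∏ j ∈ range (n + 1), (1 + p / 2 + (j : ℝ))) ^ 3 * ∏ j ∈ range (n + 1), (1 + 3 * p / 2 + (j : ℝ)) := by
    rw [Finset.prod_mul_distrib, Finset.prod_pow]
  have e2 : ∏ j ∈ range (n + 1), (((j : ℝ) + 1) * (1 + p + j) ^ 3) =
      (n + 1) * (n ! : ℝ) * (∏ j ∈ range (n + 1), (1 + p + (j : ℝ))) ^ 3 := by
    rw [Finset.prod_mul_distrib, Finset.prod_pow]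
    congr 1
    have := Finset.prod_range_add_one_eq_factorial (n + 1)
    have h' : (∏ j ∈ range (n + 1), ((j : ℝ) + 1)) = ((n + 1)! : ℝ) := by
      rw [← this]; push_cast; rfl
    rw [h', Nat.factorial_succ]
    push_cast
    ring
  have hP := prod_le' h0 h1 n
  rw [e1, e2] at hP
  obtain ⟨P, hPd⟩ : ∃ P, P = ∏ j ∈ range (n + 1), (1 + p + (j : ℝ)) := ⟨_, rfl⟩
  obtain ⟨Q, hQd⟩ : ∃ Q, Q = ∏ j ∈ range (n + 1), (1 + p / 2 + (j : ℝ)) := ⟨_, rfl⟩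
  obtain ⟨R, hRd⟩ : ∃ R, R = ∏ j ∈ range (n + 1), (1 + 3 * p / 2 + (j : ℝ)) := ⟨_, rfl⟩
  have hP0 : 0 < P := by rw [hPd]; exact Finset.prod_pos fun j _ => by positivity
  have hQ0 : 0 < Q := by rw [hQd]; exact Finset.prod_pos fun j _ => by positivity
  have hR0 : 0 < R := by rw [hRd]; exact Finset.prod_pos fun j _ => by positivity
  rw [← hPd, ← hQd, ← hRd] at hP
  rw [← hPd, ← hQd, ← hRd]
  obtain ⟨u, hu⟩ : ∃ u, u = (n : ℝ) ^ (p / 2) := ⟨_, rfl⟩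
  have hu0 : 0 < u := by rw [hu]; positivity
  have r1 : (n : ℝ) ^ (1 + p / 2) = n * u := by
    rw [Real.rpow_add hn0, Real.rpow_one, hu]
  have r2 : (n : ℝ) ^ (1 + p) = n * u ^ 2 := by
    rw [show 1 + p = 1 + p / 2 + p / 2 by ring, Real.rpow_add hn0, r1, ← hu]; ring
  have r3 : (n : ℝ) ^ (1 + 3 * p / 2) = n * u ^ 3 := by
    rw [show 1 + 3 * p / 2 = 1 + p + p / 2 by ring, Real.rpow_add hn0, r2, ← hu]; ring
  rw [r1, r2, r3]
  have hf : (0 : ℝ) < (n ! : ℝ) := by exact_mod_cast Nat.factorial_pos n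
  obtain ⟨f, hfd⟩ : ∃ f : ℝ, f = (n ! : ℝ) := ⟨_, rfl⟩
  rw [← hfd] at hP hf
  rw [← hfd]
  have hL : (n * u ^ 2 * f / P) ^ 3 = (n ^ 3 * u ^ 6 * f ^ 3) / P ^ 3 := by
    rw [div_pow]; ring
  have hR : ((n : ℝ) + 1) / n * ((1 + 91 / 1000 * p ^ 2) * ((n * u * f / Q) ^ 3 * (n * u ^ 3 * f / R))) =
      (n ^ 3 * u ^ 6 * f ^ 3) * ((n + 1) * f * (1 + 91 / 1000 * p ^ 2)) / (Q ^ 3 * R) := by
    field_simp
  rw [hL, hR, div_le_div_iff₀ (by positivity) (by positivity)]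
  calc n ^ 3 * u ^ 6 * f ^ 3 * (Q ^ 3 * R) ≤ n ^ 3 * u ^ 6 * f ^ 3 *
        ((1 + 91 / 1000 * p ^ 2) * ((n + 1) * f * P ^ 3)) := by
        apply mul_le_mul_of_nonneg_left hP (by positivity)
    _ = _ := by ring

end Pool.Agent.W2helper69.GP5
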